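import Mathlib
import Pool.Agent.U307.RAD.Stm

/-!
# Project RAD, package LP (helper56): the bound on `L^P`
-/

set_option autoImplicit false

open MeasureTheory Filter Topology Set
open scoped ENNReal SchwartzMap ComplexConjugate

namespace Pool.Agent.U56.RAD

open Pool.Agent.U307.RAD

/-- Jensen for powers on a measure space of arbitrary mass -/
lemma jens {α : Type*} [MeasurableSpace α] (ν : Measure α) {P : ℝ} (hP : 1 < P)
    {F : α → ℝ≥0∞} (hF : AEMeasurable F ν) :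
    (∫⁻ x, F x ∂ν) ^ P ≤ ν univ ^ (P - 1) * ∫⁻ x, F x ^ P ∂ν := by
  have hPQ : P.HolderConjugate (P / (P - 1)) := Real.HolderConjugate.conjExponent hP
  have h0 : 0 < P := by linarith
  have h := ENNReal.lintegral_mul_le_Lp_mul_Lq ν hPQ hF (aemeasurable_const (b := (1 : ℝ≥0∞)))
  have h1 : (∫⁻ x, F x ∂ν) ≤ (∫⁻ x, F x ^ P ∂ν) ^ (1 / P) * (ν univ) ^ (1 / (P / (P - 1))) := by
    simpa using h
  have h2 := ENNReal.rpow_le_rpow h1 h0.le
  rw [ENNReal.mul_rpow_of_nonneg _ _ h0.le, ← ENNReal.rpow_mul, ← ENNReal.rpow_mul,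
    one_div_mul_cancel h0.ne', ENNReal.rpow_one] at h2
  have e : 1 / (P / (P - 1)) * P = P - 1 := by
    have : P - 1 ≠ 0 := by linarith
    field_simp
  rw [e, mul_comm] at h2
  exact h2

lemma ee_cont : Continuous ee := by
  unfold ee
  fun_prop

lemma norm_ee (t : ℝ) : ‖ee t‖ = 1 := by
  have e : ee t = Complex.exp ((2 * Real.pi * t : ℝ) * Complex.I) := by
    unfold ee
    congr 1
    push_cast
    ring
  rw [e, Complex.norm_exp_ofReal_mul_I]

lemma PP_cont (m : ℕ) {f : ℂ → ℂ} (hf : Continuous f) : Continuous (PP m f) := by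
  unfold PP
  have h : Continuous (Function.uncurry fun (z : ℂ) (t : ℝ) => ee t ^ m * f (ee t * z)) := by
    have h1 := ee_cont
    unfold Function.uncurry
    fun_prop
  exact intervalIntegral.continuous_parametric_intervalIntegral_of_continuous' h 0 1

lemma lint_rot (a : ℂ) (ha : ‖a‖ = 1) {φ : ℂ → ℝ≥0∞} (hφ : Measurable φ) :
    ∫⁻ z, φ (a * z) = ∫⁻ z, φ z := by
  let c : Circle := ⟨a, by simp [Submonoid.unitSphere, ha]⟩
  have h := (rotation c).measurePreserving.lintegral_comp hφ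
  have e : ∀ z, rotation c z = a * z := fun z => by rw [rotation_apply]
  simpa only [e] using h

lemma lint_scale {r : ℝ} (hr : 0 < r) {φ : ℂ → ℝ≥0∞} (hφ : Measurable φ) :
    ENNReal.ofReal (r ^ 2) * ∫⁻ z, φ ((r : ℂ) * z) = ∫⁻ z, φ z := by
  have h := Measure.map_addHaar_smul (volume : Measure ℂ) hr.ne'
  have h1 : ∫⁻ z, φ ((r : ℂ) * z) = ∫⁻ z, φ z ∂(Measure.map (r • ·) (volume : Measure ℂ)) := by
    rw [lintegral_map hφ (measurable_const_smul r)]
    simp only [Complex.real_smul]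
  rw [h1, h, lintegral_smul_measure, Complex.finrank_real_complex, smul_eq_mul, ← mul_assoc,
    ← ENNReal.ofReal_mul (by positivity), abs_of_pos (by positivity),
    mul_inv_cancel₀ (by positivity), ENNReal.ofReal_one, one_mul]

lemma PP_le (m : ℕ) {f : ℂ → ℂ} (hf : Continuous f) {P : ℝ} (hP : 1 < P) :
    ∫⁻ z, ‖PP m f z‖ₑ ^ P ≤ ∫⁻ z, ‖f z‖ₑ ^ P := by
  have hc : Continuous fun q : ℂ × ℝ => f (ee q.2 * q.1) := by
    have h1 := ee_cont
    fun_prop
  have h0 : 0 < P := by linarith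
  have h1 : ∀ z, ‖PP m f z‖ₑ ^ P ≤ ∫⁻ t in Ioc (0 : ℝ) 1, ‖f (ee t * z)‖ₑ ^ P := by
    intro z
    have e1 : ‖PP m f z‖ₑ ≤ ∫⁻ t in Ioc (0 : ℝ) 1, ‖f (ee t * z)‖ₑ := by
      unfold PP
      rw [intervalIntegral.integral_of_le zero_le_one]
      refine (enorm_integral_le_lintegral_enorm _).trans (le_of_eq ?_)
      refine lintegral_congr fun t => ?_
      rw [enorm_mul, enorm_pow]
      have : ‖ee t‖ₑ = 1 := by
        rw [← ofReal_norm, norm_ee, ENNReal.ofReal_one]
      rw [this, one_pow, one_mul]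
    have e2 := jens (volume.restrict (Ioc (0 : ℝ) 1)) hP (F := fun t => ‖f (ee t * z)‖ₑ)
      ((hc.comp (Continuous.prodMk continuous_const continuous_id)).enorm.aemeasurable)
    refine (ENNReal.rpow_le_rpow e1 h0.le).trans (e2.trans (le_of_eq ?_))
    simp
  calc ∫⁻ z, ‖PP m f z‖ₑ ^ P ≤ ∫⁻ z, ∫⁻ t in Ioc (0 : ℝ) 1, ‖f (ee t * z)‖ₑ ^ P :=
        lintegral_mono h1
    _ = ∫⁻ t in Ioc (0 : ℝ) 1, ∫⁻ z, ‖f (ee t * z)‖ₑ ^ P := by
        refine lintegral_lintegral_swap ?_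
        exact (hc.enorm.measurable.pow_const P).aemeasurable
    _ = ∫⁻ t in Ioc (0 : ℝ) 1, ∫⁻ z, ‖f z‖ₑ ^ P := by
        refine lintegral_congr fun t => ?_
        exact lint_rot (ee t) (norm_ee t) (φ := fun z => ‖f z‖ₑ ^ P)
          (hf.enorm.measurable.pow_const P)
    _ = ∫⁻ z, ‖f z‖ₑ ^ P := by simp

lemma uu_cont (n l : ℕ) : Continuous (uu n l) := by
  unfold uu
  fun_prop

theorem t_LP : S_FRM → S_LP := by
  intro hF n l hn P hP f
  have h0 : 0 < P := by linarith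
  have h1 : 1 < P := by linarith
  set g : ℂ → ℂ := PP l f with hg
  have hgc : Continuous g := PP_cont l f.continuous
  set S : Set ℝ := Ioc (0 : ℝ) 1 with hS
  set w : ℝ → ℝ≥0∞ := fun r => ENNReal.ofReal (|uu n l r| * r ^ (1 - 2 / P)) with hw
  have hexp : 0 < 1 - 2 / P := by
    rw [sub_pos, div_lt_one h0]
    exact hP
  have hwc : Continuous fun r : ℝ => |uu n l r| * r ^ (1 - 2 / P) := by
    refine (uu_cont n l).abs.mul ?_
    exact Real.continuous_rpow_const hexp.le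
  have hwm : Measurable w := hwc.measurable.ennreal_ofReal
  set K : ℝ≥0∞ := ∫⁻ r in S, w r with hK
  have hKv : K = ENNReal.ofReal (∫ r in (0 : ℝ)..1, |uu n l r| * r ^ (1 - 2 / P)) := by
    rw [intervalIntegral.integral_of_le zero_le_one]
    rw [ofReal_integral_eq_lintegral_ofReal]
    · exact hwc.integrableOn_Ioc
    · refine (ae_restrict_mem measurableSet_Ioc).mono fun r hr => ?_
      have : 0 ≤ r ^ (1 - 2 / P) := Real.rpow_nonneg hr.1.le _
      exact mul_nonneg (abs_nonneg _) this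
  have hKP : ENNReal.ofReal (KP n l P) = 1 + K := by
    rw [hKv, KP, ENNReal.ofReal_add zero_le_one, ENNReal.ofReal_one]
    refine intervalIntegral.integral_nonneg zero_le_one fun r hr => ?_
    exact mul_nonneg (abs_nonneg _) (Real.rpow_nonneg hr.1 _)
  -- the second term
  set h : ℂ → ℝ≥0∞ := fun z => ∫⁻ r in S, ‖(qq n l r : ℂ)‖ₑ * ‖g ((r : ℂ) * z)‖ₑ with hh
  have hqc : Continuous fun r : ℝ => (qq n l r : ℂ) := by
    have : Continuous (qq n l) := by
      unfold qq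
      exact continuous_id.mul (uu_cont n l)
    exact Complex.continuous_ofReal.comp this
  have hgr : Continuous fun q : ℂ × ℝ => g ((q.2 : ℂ) * q.1) := by fun_prop
  have hhm : Measurable h := by
    rw [hh]
    refine Measurable.lintegral_prod_right' (f := fun q : ℂ × ℝ =>
      ‖(qq n l q.2 : ℂ)‖ₑ * ‖g ((q.2 : ℂ) * q.1)‖ₑ) ?_
    exact ((hqc.comp continuous_snd).enorm.measurable).mul hgr.enorm.measurable
  have hAA : ∀ᵐ z : ℂ, ‖AA n l f z‖ₑ ≤ ‖g z‖ₑ + h z := by
    have hne : ∀ᵐ z : ℂ, z ≠ 0 := by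
      simp [ae_iff, measure_singleton]
    refine hne.mono fun z hz => ?_
    rw [hF n l hn f z hz, enorm_mul, enorm_pow]
    have e1 : ‖starRingEnd ℂ z / z‖ₑ = 1 := by
      rw [← ofReal_norm, norm_div, Complex.norm_conj, div_self (by simpa using hz),
        ENNReal.ofReal_one]
    rw [e1, one_pow, one_mul]
    refine (enorm_sub_le).trans (add_le_add le_rfl ?_)
    rw [intervalIntegral.integral_of_le zero_le_one]
    refine (enorm_integral_le_lintegral_enorm _).trans (le_of_eq ?_)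
    refine lintegral_congr fun r => ?_
    rw [enorm_mul]
  -- the norm of the second term
  have hhP : ∫⁻ z, h z ^ P ≤ K ^ P * ∫⁻ z, ‖g z‖ₑ ^ P := by
    set ν : Measure ℝ := (volume.restrict S).withDensity w with hν
    have hνu : ν univ = K := by
      rw [hν, withDensity_apply _ MeasurableSet.univ, setLIntegral_univ]
    have m1 : Measurable fun r : ℝ => ENNReal.ofReal (r ^ (2 / P)) :=
      (Measurable.pow_const measurable_id _).ennreal_ofReal
    have m2 : ∀ z : ℂ, Measurable fun r : ℝ => ‖g ((r : ℂ) * z)‖ₑ := fun z => by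
      have : Continuous fun r : ℝ => g ((r : ℂ) * z) := by fun_prop
      exact this.enorm.measurable
    have hm : ∀ z : ℂ, Measurable fun r : ℝ => ENNReal.ofReal (r ^ (2 / P)) * ‖g ((r : ℂ) * z)‖ₑ :=
      fun z => m1.mul (m2 z)
    have e1 : ∀ z, h z = ∫⁻ r, ENNReal.ofReal (r ^ (2 / P)) * ‖g ((r : ℂ) * z)‖ₑ ∂ν := by
      intro z
      rw [hν, lintegral_withDensity_eq_lintegral_mul _ hwm]
      · refine setLIntegral_congr_fun measurableSet_Ioc fun r hr => ?_
        simp only [Pi.mul_apply]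
        rw [← mul_assoc]
        congr 1
        rw [hw]
        simp only
        have hr0 : 0 < r := hr.1
        rw [← ENNReal.ofReal_mul (by positivity), mul_assoc, ← Real.rpow_add hr0]
        have : 1 - 2 / P + 2 / P = 1 := by ring
        rw [this, Real.rpow_one, ← ofReal_norm, Complex.norm_real, Real.norm_eq_abs, qq,
          abs_mul, abs_of_pos hr0, mul_comm]
      · exact hm z
    have e2 : ∀ z, h z ^ P ≤ K ^ (P - 1) *
        ∫⁻ r in S, w r * (ENNReal.ofReal (r ^ 2) * ‖g ((r : ℂ) * z)‖ₑ ^ P) := by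
      intro z
      rw [e1 z]
      refine (jens ν h1 (hm z).aemeasurable).trans ?_
      rw [hνu]
      refine mul_le_mul_right ?_ _
      rw [hν, lintegral_withDensity_eq_lintegral_mul _ hwm ((hm z).pow_const P)]
      refine le_of_eq (setLIntegral_congr_fun measurableSet_Ioc fun r hr => ?_)
      simp only [Pi.mul_apply]
      have hr0 : 0 < r := hr.1
      rw [ENNReal.mul_rpow_of_nonneg _ _ h0.le, ENNReal.ofReal_rpow_of_nonneg (by positivity) h0.le,
        ← Real.rpow_mul hr0.le, div_mul_cancel₀ _ h0.ne']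
      norm_num
    have hmm : Measurable fun q : ℂ × ℝ =>
        w q.2 * (ENNReal.ofReal (q.2 ^ 2) * ‖g ((q.2 : ℂ) * q.1)‖ₑ ^ P) := by
      refine (hwm.comp measurable_snd).mul (Measurable.mul ?_ (hgr.enorm.measurable.pow_const P))
      exact (measurable_snd.pow_const 2).ennreal_ofReal
    calc ∫⁻ z, h z ^ P
        ≤ ∫⁻ z, K ^ (P - 1) *
          ∫⁻ r in S, w r * (ENNReal.ofReal (r ^ 2) * ‖g ((r : ℂ) * z)‖ₑ ^ P) := lintegral_mono e2
      _ = K ^ (P - 1) * ∫⁻ z, ∫⁻ r in S,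
          w r * (ENNReal.ofReal (r ^ 2) * ‖g ((r : ℂ) * z)‖ₑ ^ P) := by
          rw [lintegral_const_mul]
          exact Measurable.lintegral_prod_right' hmm
      _ = K ^ (P - 1) * ∫⁻ r in S, ∫⁻ z,
          w r * (ENNReal.ofReal (r ^ 2) * ‖g ((r : ℂ) * z)‖ₑ ^ P) := by
          rw [lintegral_lintegral_swap hmm.aemeasurable]
      _ = K ^ (P - 1) * ∫⁻ r in S, w r * ∫⁻ z, ‖g z‖ₑ ^ P := by
          congr 1
          refine setLIntegral_congr_fun measurableSet_Ioc fun r hr => ?_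
          have hm' : Measurable fun z : ℂ => ‖g ((r : ℂ) * z)‖ₑ ^ P :=
            ((hgc.comp (continuous_const.mul continuous_id)).enorm.measurable).pow_const P
          rw [lintegral_const_mul _ (hm'.const_mul _), lintegral_const_mul _ hm',
            lint_scale hr.1 (φ := fun z => ‖g z‖ₑ ^ P) (hgc.enorm.measurable.pow_const P)]
      _ = K ^ P * ∫⁻ z, ‖g z‖ₑ ^ P := by
          rw [lintegral_mul_const _ hwm, ← mul_assoc]
          congr 1
          rw [← hK]
          by_cases hK0 : K = 0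
          · rw [hK0, ENNReal.zero_rpow_of_pos h0, mul_zero]
          · have hKt : K ≠ ⊤ := by rw [hKv]; exact ENNReal.ofReal_ne_top
            conv_lhs => rw [← ENNReal.rpow_one K, ← ENNReal.rpow_mul]
            rw [← ENNReal.rpow_add _ _ hK0 hKt]
            congr 1
            ring
  -- Minkowski
  have hfin : (∫⁻ z, ‖AA n l f z‖ₑ ^ P) ^ (1 / P) ≤
      (1 + K) * (∫⁻ z, ‖f z‖ₑ ^ P) ^ (1 / P) := by
    have a1 : ∫⁻ z, ‖AA n l f z‖ₑ ^ P ≤ ∫⁻ z, ((fun z => ‖g z‖ₑ) + h) z ^ P := by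
      refine lintegral_mono_ae (hAA.mono fun z hz => ?_)
      exact ENNReal.rpow_le_rpow hz h0.le
    have a2 := ENNReal.lintegral_Lp_add_le (μ := (volume : Measure ℂ))
      (f := fun z => ‖g z‖ₑ) (g := h) hgc.enorm.measurable.aemeasurable hhm.aemeasurable h1.le
    have a3 : (∫⁻ z, ‖g z‖ₑ ^ P) ≤ ∫⁻ z, ‖f z‖ₑ ^ P := PP_le l f.continuous h1
    have hi : 0 ≤ 1 / P := by positivity
    have a4 : (∫⁻ z, h z ^ P) ^ (1 / P) ≤ K * (∫⁻ z, ‖f z‖ₑ ^ P) ^ (1 / P) := by
      refine (ENNReal.rpow_le_rpow (hhP.trans (mul_le_mul_right a3 _)) hi).trans (le_of_eq ?_)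
      rw [ENNReal.mul_rpow_of_nonneg _ _ hi, ← ENNReal.rpow_mul, mul_one_div_cancel h0.ne',
        ENNReal.rpow_one]
    calc (∫⁻ z, ‖AA n l f z‖ₑ ^ P) ^ (1 / P)
        ≤ (∫⁻ z, ((fun z => ‖g z‖ₑ) + h) z ^ P) ^ (1 / P) := ENNReal.rpow_le_rpow a1 hi
      _ ≤ (∫⁻ z, ‖g z‖ₑ ^ P) ^ (1 / P) + (∫⁻ z, h z ^ P) ^ (1 / P) := a2
      _ ≤ (∫⁻ z, ‖f z‖ₑ ^ P) ^ (1 / P) + K * (∫⁻ z, ‖f z‖ₑ ^ P) ^ (1 / P) :=
          add_le_add (ENNReal.rpow_le_rpow a3 hi) a4
      _ = (1 + K) * (∫⁻ z, ‖f z‖ₑ ^ P) ^ (1 / P) := by ring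
  have := ENNReal.rpow_le_rpow hfin h0.le
  rw [← ENNReal.rpow_mul, one_div_mul_cancel h0.ne', ENNReal.rpow_one,
    ENNReal.mul_rpow_of_nonneg _ _ h0.le, ← ENNReal.rpow_mul, one_div_mul_cancel h0.ne',
    ENNReal.rpow_one] at this
  rw [hKP]
  exact this

end Pool.Agent.U56.RAD
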